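import Pool.Agent.W424.KI.Stm

/-!
# Annuli of the dislocated plane: re-randomising the tube (step A) and the rest (step B)
-/

set_option autoImplicit false

namespace Pool.Agent.W906.KI
open H974 H906.Cyl
open H12S (Dir hbE segD rimE H4 Crs Nr sqE)
open Pool.Agent.H160R2.ML (nm)
open Pool.Agent.H160R2.MU (Cel csq cpos EP inSq)
open Pool.Agent.W801.OU
open Pool.Agent.W808.KZ (vp fp AdmZ OutF LandZ nrp ZCr mrg)
open Pool.Agent.W424.KI

namespace Aux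

/-- the coarse square of an edge -/
theorem mem_sq {r : ℕ} (hr : 1 ≤ r) (x y : ℤ) (b : Bool) :
    ((x, y, b) : Edg) ∈ sqE r (x / r, y / r) := by
  have hr0 : (0 : ℤ) < r := by exact_mod_cast hr
  have hx1 := Int.emod_nonneg x hr0.ne'
  have hx2 := Int.emod_lt_of_pos x hr0
  have hx3 := Int.mul_ediv_add_emod x r
  have hy1 := Int.emod_nonneg y hr0.ne'
  have hy2 := Int.emod_lt_of_pos y hr0
  have hy3 := Int.mul_ediv_add_emod y r
  cases b
  · unfold sqE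
    rw [mem_RE_false]
    refine ⟨?_, ?_, ?_, ?_⟩ <;> simp only <;> linarith
  · unfold sqE
    rw [mem_RE_true]
    refine ⟨?_, ?_, ?_, ?_⟩ <;> simp only <;> linarith

/-- squares near the tip are in the inner box -/
theorem box_in {N L r : ℕ} (hN : 1 ≤ N) (hr : 1 ≤ r) :
    ∀ e ∈ bxz (N * r / 2 : ℕ), e ∈ EB N L r := by
  rintro ⟨x, y, b⟩ he
  have hNr : N * r / 2 < N * r := Nat.div_lt_self (Nat.mul_pos hN hr) (by norm_num)
  have hNr' : ((N * r / 2 : ℕ) : ℤ) < N * r := by exact_mod_cast hNr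
  have h1 : nm (x, y) ≤ ((N * r / 2 : ℕ) : ℤ) := he.1
  have hx : |x| ≤ ((N * r / 2 : ℕ) : ℤ) := le_trans (le_max_left _ _) h1
  have hy : |y| ≤ ((N * r / 2 : ℕ) : ℤ) := le_trans (le_max_right _ _) h1
  rw [abs_le] at hx hy
  have hr0 : (0 : ℤ) < r := by exact_mod_cast hr
  refine ⟨(x / r, y / r), Or.inl ⟨?_, ?_, ?_, ?_⟩, mem_sq hr x y b⟩
  · show -(N : ℤ) ≤ x / r
    rw [Int.le_ediv_iff_mul_le hr0]; nlinarith [hx.1]
  · show x / r < N
    rw [Int.ediv_lt_iff_lt_mul hr0]; nlinarith [hx.2]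
  · show -(N : ℤ) ≤ y / r
    rw [Int.le_ediv_iff_mul_le hr0]; nlinarith [hy.1]
  · show y / r < N
    rw [Int.ediv_lt_iff_lt_mul hr0]; nlinarith [hy.2]

/-- squares far away are in the outer region -/
theorem ann_in {N L r R : ℕ} (hL : 1 ≤ L) (hr : 1 ≤ r) :
    ∀ e ∈ AnS (2 * (L * r) : ℕ) R, e ∈ EB N L r := by
  rintro ⟨x, y, b⟩ he
  have h1 : ((2 * (L * r) : ℕ) : ℤ) ≤ nm (x, y) := he.1.1
  push_cast at h1
  have hr0 : (0 : ℤ) < r := by exact_mod_cast hr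
  have hL0 : (0 : ℤ) < L := by exact_mod_cast hL
  have hLr : (0 : ℤ) < (L : ℤ) * r := mul_pos hL0 hr0
  refine ⟨(x / r, y / r), Or.inr ?_, mem_sq hr x y b⟩
  rintro ⟨h2, h3, h4, h5⟩
  simp only at h2 h3 h4 h5
  rw [Int.le_ediv_iff_mul_le hr0] at h2 h4
  rw [Int.ediv_lt_iff_lt_mul hr0] at h3 h5
  have h6 : |x| ≤ L * r := by rw [abs_le]; constructor <;> linarith
  have h7 : |y| ≤ L * r := by rw [abs_le]; constructor <;> linarith
  have h8 : nm (x, y) ≤ L * r := max_le h6 h7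
  linarith

section
variable {N L r : ℕ} {Ci Co : Cel} {R : ℕ}

theorem FA_iff {F : Finset Edg} (hF : F ⊆ boxE R) {e : Edg} (he : e ∈ EB N L r) :
    e ∈ (↑(FA N L r Ci Co R F) : Set Edg) ↔ e ∈ (↑F : Set Edg) := by
  classical
  unfold FA
  simp only [Finset.mem_coe, Finset.mem_filter]
  constructor
  · rintro ⟨_, h1 | h1⟩
    · exact h1.2
    · exact absurd he h1.1
  · intro h1
    exact ⟨hF h1, Or.inl ⟨he, h1⟩⟩

theorem FB_iff {F : Finset Edg} (hF : F ⊆ boxE R) {e : Edg} (he : e ∈ EB N L r) :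
    e ∈ (↑(FB N L r Ci Co R F) : Set Edg) ↔ e ∈ (↑F : Set Edg) := by
  classical
  unfold FB
  simp only [Finset.mem_coe, Finset.mem_filter]
  constructor
  · rintro ⟨_, h1⟩
    exact h1.2
  · intro h1
    exact ⟨hF h1, Or.inl he, h1⟩

end

/-- the arithmetic of the radii -/
theorem radii {M3 M4 r : ℕ} (hM3 : 64 ≤ M3) (hM4 : 64 * M3 ≤ M4) (hr : M4 ≤ r) :
    1 ≤ r / M4 ∧ 32 * (r / M4) ≤ r / M3 ∧ 64 * (r / M3) ≤ r ∧ 64 * 64 ≤ r := by
  refine ⟨(Nat.one_le_div_iff (by omega)).2 hr, ?_, ?_, by omega⟩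
  · rw [Nat.le_div_iff_mul_le (by omega)]
    have h1 : M4 * (r / M4) ≤ r := Nat.mul_div_le r M4
    nlinarith [Nat.zero_le (r / M4), Nat.mul_le_mul_right (r / M4) hM4]
  · have h1 : M3 * (r / M3) ≤ r := Nat.mul_div_le r M3
    nlinarith [Nat.zero_le (r / M3)]

/-- the probabilistic part of both steps -/
theorem comb (hPRB : Pool.Agent.H160R2.MU.S_PRB) (R : ℕ) (Ex : Finset Edg → Finset Edg)
    (A Bd K B : Finset Edg → Prop) (κ ε : ℝ) (hκ : 0 < κ)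
    (hbad : PF R (fun F => A F ∧ Bd F) ≤ ε)
    (hEx : ∀ F G : Finset Edg, F ⊆ boxE R → G ⊆ boxE R → Ex (mrg (Ex F) F G) = Ex F)
    (hdet : ∀ F G : Finset Edg, F ⊆ boxE R → G ⊆ boxE R → A F → ¬ Bd F → K G →
      B (mrg (Ex F) F G)) (hK : κ ≤ PF R K) :
    PF R A ≤ ε + 1 / κ * PF R B := by
  have hok : H974.Ok (fun _ : Edg => (1 / 2 : ℝ)) := okq (by norm_num) (by norm_num)
  have hgood : PF R (fun F => A F ∧ ¬ Bd F) * PF R K ≤ PF R B := by
    refine hPRB (boxE R) Ex _ _ _ ?_ ?_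
    · intro F G hF hG
      exact hEx F G hF hG
    · rintro F G hF hG ⟨h1, h2⟩ h3
      exact hdet F G hF hG h1 h2 h3
  have hsplit : PF R A ≤ PF R (fun F => A F ∧ Bd F) + PF R (fun F => A F ∧ ¬ Bd F) := by
    refine le_trans ?_ (Pr_or_le hok _ _ _)
    refine Pr_mono hok ?_
    intro F hF h
    by_cases h1 : Bd F
    · exact Or.inl ⟨h, h1⟩
    · exact Or.inr ⟨h, h1⟩
  have hg0 : 0 ≤ PF R (fun F => A F ∧ ¬ Bd F) := Pr_nonneg hok _ _
  have hfin : PF R (fun F => A F ∧ ¬ Bd F) ≤ 1 / κ * PF R B := by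
    rw [one_div, ← div_eq_inv_mul, le_div_iff₀ hκ]
    exact le_trans (mul_le_mul_of_nonneg_left hK hg0) hgood
  linarith

/-- the bad part of both steps -/
theorem badp (hDEC : S_DEC) (hIND : S_IND) {c N L r ρ l R : ℕ} {Ci Co : Cel} (hc : c < 2)
    (hG : Geo N L r Ci Co R) (hl : 1 ≤ l) (hlρ : 32 * l ≤ ρ) (hρ : 64 * ρ ≤ r) {δ : ℝ}
    (hB : PF R (fun F => Bad c N L r ρ l (↑F : Set Edg) ∨ BZ N L r ρ (↑F : Set Edg)) ≤ δ)
    (A : Finset Edg → Prop) (f : Finset Edg → Finset Edg)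
    (hA : ∀ F : Finset Edg, F ⊆ boxE R → A F → SE3 R (↑(f F) : Set Edg))
    (hf : ∀ F : Finset Edg, F ⊆ boxE R → ∀ e ∈ EB N L r,
      e ∈ (↑(f F) : Set Edg) ↔ e ∈ (↑F : Set Edg)) :
    PF R (fun F => A F ∧ (Bad c N L r ρ l (↑F : Set Edg) ∨ BZ N L r ρ (↑F : Set Edg))) ≤
      δ * (uR (N * r / 2) * vA (2 * (L * r)) R) := by
  have hok : H974.Ok (fun _ : Edg => (1 / 2 : ℝ)) := okq (by norm_num) (by norm_num)
  have hr : 4 ≤ r := hG.hr
  have hN : 16 ≤ N := hG.hN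
  have hL : 3 * N ≤ L := hG.hL
  have hR : 4 * (L * r) ≤ R := hG.hR
  have hNr : 32 ≤ N * r := by
    have : 16 * 4 ≤ N * r := Nat.mul_le_mul hN hr
    omega
  have hNL : N * r ≤ L * r := Nat.mul_le_mul_right r (by omega)
  have h1 : PF R (fun F => A F ∧
      (Bad c N L r ρ l (↑F : Set Edg) ∨ BZ N L r ρ (↑F : Set Edg))) ≤
      PF R (fun F => (SE3 (N * r / 2 : ℕ) (↑F : Set Edg) ∧
        VA (2 * (L * r) : ℕ) R (↑F : Set Edg)) ∧
        (Bad c N L r ρ l (↑F : Set Edg) ∨ BZ N L r ρ (↑F : Set Edg))) := by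
    refine Pr_mono hok ?_
    rintro F hF ⟨h1, h2⟩
    refine ⟨?_, h2⟩
    exact hDEC (N * r / 2) (2 * (L * r)) R (↑(f F) : Set Edg) (↑F : Set Edg) (by omega) (by omega)
      (by omega) (fun e he => hf F hF e (box_in (by omega) (by omega) e he))
      (fun e he => hf F hF e (ann_in (by omega) (by omega) e he)) (hA F hF h1)
  have h2 := hIND c N L r ρ l R hc hN hL hr hl hlρ hρ hR
  have h3 : 0 ≤ uR (N * r / 2) := Pr_nonneg hok _ _
  have h4 : 0 ≤ vA (2 * (L * r)) R := Pr_nonneg hok _ _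
  calc _ ≤ _ := h1
    _ ≤ _ := h2
    _ ≤ uR (N * r / 2) * vA (2 * (L * r)) R * δ :=
        mul_le_mul_of_nonneg_left hB (mul_nonneg h3 h4)
    _ = _ := mul_comm _ _

end Aux

/-- **step A** -/
theorem t_STA : Pool.Agent.H160R2.MU.S_PRB → S_MA1 → S_EXA1 → S_TRP → S_BADZ → S_DEC → S_IND →
    S_STA := by
  intro hPRB hMA hEXA hTRP hBADZ hDEC hIND N L Ci Co hN hL hi ho δ hδ
  obtain ⟨M3, M4, hM3, hM4, hB⟩ := hBADZ N L hN hL δ hδ
  obtain ⟨κ, hκ, r0, hT⟩ := hTRP L M4 (by omega) (by omega)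
  refine ⟨1 / κ, by positivity, max r0 M4, ?_⟩
  intro r R hr hR
  have hr1 : r0 ≤ r := le_trans (le_max_left _ _) hr
  have hr2 : M4 ≤ r := le_trans (le_max_right _ _) hr
  obtain ⟨hl, hlρ, hρ, hrb⟩ := Aux.radii hM3 hM4 hr2
  have hG : Geo N L r Ci Co R := ⟨hN, hL, by omega, hi, ho, hR⟩
  refine Aux.comb hPRB R (ExA1 N L r Ci Co R)
    (fun F => EZ N L r Ci Co R (↑(FA N L r Ci Co R F) : Set Edg))
    (fun F => Bad 1 N L r (r / M3) (r / M4) (↑F : Set Edg) ∨ BZ N L r (r / M3) (↑F : Set Edg))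
    (fun F => PTr 1 L r (r / M4) (↑F : Set Edg))
    (fun F => EZ N L r Ci Co R (↑(FB N L r Ci Co R F) : Set Edg)) κ _ hκ ?_ ?_ ?_
    (hT 1 r R (by norm_num) hr1 hR)
  · exact Aux.badp hDEC hIND (by norm_num) hG hl hlρ hρ (hB 1 r R (by norm_num) hr2 hR) _
      (FA N L r Ci Co R) (fun F _ h => h.1) (fun F hF e he => Aux.FA_iff hF he)
  · intro F G hF hG'
    exact (hEXA N L r Ci Co R hG F G hF hG').1
  · intro F G hF hG' h1 h2 h3
    exact hMA N L r (r / M3) (r / M4) Ci Co R hG hl hlρ hρ F G hF hG'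
      (fun h => h2 (Or.inl h)) h3 h1

/-- **step B** -/
theorem t_STB : Pool.Agent.H160R2.MU.S_PRB → S_MB1 → S_EXB1 → S_TRP → S_BADZ → S_DEC → S_IND →
    S_STB := by
  intro hPRB hMB hEXB hTRP hBADZ hDEC hIND N L Ci Co hN hL hi ho δ hδ
  obtain ⟨M3, M4, hM3, hM4, hB⟩ := hBADZ N L hN hL (δ / 3) (by positivity)
  obtain ⟨κ, hκ, r0, hT⟩ := hTRP L M4 (by omega) (by omega)
  refine ⟨3 * (1 / κ), by positivity, max r0 M4, ?_⟩
  intro r R hr hR
  have hok : H974.Ok (fun _ : Edg => (1 / 2 : ℝ)) := okq (by norm_num) (by norm_num)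
  have hr1 : r0 ≤ r := le_trans (le_max_left _ _) hr
  have hr2 : M4 ≤ r := le_trans (le_max_right _ _) hr
  obtain ⟨hl, hlρ, hρ, hrb⟩ := Aux.radii hM3 hM4 hr2
  have hG : Geo N L r Ci Co R := ⟨hN, hL, by omega, hi, ho, hR⟩
  have key : ∀ c : ℕ, c < 3 →
      PF R (fun F => EZc c N L r Ci Co R (↑(FB N L r Ci Co R F) : Set Edg)) ≤
        δ / 3 * (uR (N * r / 2) * vA (2 * (L * r)) R) + 1 / κ * uR R := by
    intro c hc
    refine Aux.comb hPRB R (ExB1 c N L r (r / M3) Ci Co R)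
      (fun F => EZc c N L r Ci Co R (↑(FB N L r Ci Co R F) : Set Edg))
      (fun F => Bad 0 N L r (r / M3) (r / M4) (↑F : Set Edg) ∨ BZ N L r (r / M3) (↑F : Set Edg))
      (fun F => PTr 0 L r (r / M4) (↑F : Set Edg))
      (fun F => SE3 R (↑F : Set Edg)) κ _ hκ ?_ ?_ ?_
      (hT 0 r R (by norm_num) hr1 hR)
    · exact Aux.badp hDEC hIND (by norm_num) hG hl hlρ hρ (hB 0 r R (by norm_num) hr2 hR) _
        (FB N L r Ci Co R) (fun F _ h => h.1) (fun F hF e he => Aux.FB_iff hF he)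
    · intro F G hF hG'
      exact (hEXB c N L r (r / M3) Ci Co R hG (by omega) hρ F G hF hG').1
    · intro F G hF hG' h1 h2 h3
      exact hMB c N L r (r / M3) (r / M4) Ci Co R hc hG hl hlρ hρ F G hF hG'
        (fun h => h2 (Or.inl h)) (fun h => h2 (Or.inr h)) h3 h1
  have hsplit : PF R (fun F => EZ N L r Ci Co R (↑(FB N L r Ci Co R F) : Set Edg)) ≤
      PF R (fun F => EZc 0 N L r Ci Co R (↑(FB N L r Ci Co R F) : Set Edg)) +
      (PF R (fun F => EZc 1 N L r Ci Co R (↑(FB N L r Ci Co R F) : Set Edg)) +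
      PF R (fun F => EZc 2 N L r Ci Co R (↑(FB N L r Ci Co R F) : Set Edg))) := by
    refine le_trans ?_ (add_le_add le_rfl (Pr_or_le hok _ _ _))
    refine le_trans ?_ (Pr_or_le hok _ _ _)
    refine Pr_mono hok ?_
    rintro F hF ⟨h1, c, hc, h2⟩
    interval_cases c
    · exact Or.inl ⟨h1, h2⟩
    · exact Or.inr (Or.inl ⟨h1, h2⟩)
    · exact Or.inr (Or.inr ⟨h1, h2⟩)
  have k0 := key 0 (by norm_num)
  have k1 := key 1 (by norm_num)
  have k2 := key 2 (by norm_num)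
  linarith

end Pool.Agent.W906.KI
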